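import Mathlib

/-!
# Squad RCM (MP_33201b_co): recycled closures for ARBITRARY pairs of matroids (helper35)

`κ : E → K` is a colouring of the ground set of two matroids `M`, `N`, every colour class is
independent in both and has at least `s` elements (`Col`).  `T` is a rainbow common independent set
(`RI`) of maximal size `t` (`Mx`).  The `M`-closure with frozen set `P` and forbidden colours `X`:
a move at the state `T` adds `x`, where the colour of `x` is unused and not in `X` and `x` is not in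
`M.closure (T ∪ P)`, and removes any `y ∈ T` with `x ∉ N.closure (T \ {y})`.  `Sta` = the elements of
`T` which are never removed, `h = (T \ Sta).ncard`, `Ph = N.closure (T \ Sta)`, `Pl` = the colours in
play.  `LB F`: every such system with `t + |P| + z ≤ s` and at least one colour in play has `F z ≤ h`.
The `N`-closure is the same with `M` and `N` exchanged.

All closures are Mathlib's `Matroid.closure`.  Useful lemmas of Mathlib:
`Matroid.Indep.closure_inter_eq_inter_closure`,
`Matroid.Indep.closure_sInter_eq_biInter_closure_of_forall_subset`,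
`Matroid.Indep.insert_indep_iff_of_notMem`, `Matroid.Indep.notMem_closure_iff_of_notMem`,
`Matroid.mem_closure_insert`, `Matroid.closure_insert_eq_of_mem_closure`,
`Matroid.eRk_inter_add_eRk_union_le`, `Matroid.indep_iff_eRk_eq_encard_of_finite`,
`Matroid.Indep.encard_le_eRk_of_subset`, `Matroid.eRk_closure_eq`, `Matroid.eRk_le_encard`.
All elements of `E` are in the ground sets (`Col.indM (κ x)`, `Matroid.Indep.subset_ground`).
-/

set_option autoImplicit false

namespace Pool.Agent.RCM

open Set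

universe u

variable {E : Type u} {K : Type}

/-- every colour class is independent in both matroids and has at least `s` elements -/
structure Col (M N : Matroid E) (κ : E → K) (s : ℕ) : Prop where
  indM : ∀ c, M.Indep (κ ⁻¹' {c})
  indN : ∀ c, N.Indep (κ ⁻¹' {c})
  card : ∀ c, s ≤ (κ ⁻¹' {c}).ncard

/-- rainbow common independent set -/
structure RI (M N : Matroid E) (κ : E → K) (T : Set E) : Prop where
  indM : M.Indep T
  indN : N.Indep T
  inj : InjOn κ T

/-- no rainbow common independent set has more than `t` elements -/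
def Mx (M N : Matroid E) (κ : E → K) (t : ℕ) : Prop := ∀ T, RI M N κ T → T.ncard ≤ t

/-- states of the `M`-closure with frozen set `P` and forbidden colours `X` -/
structure St (M N : Matroid E) (κ : E → K) (P : Set E) (X : Set K) (t : ℕ) (T : Set E) : Prop where
  ri : RI M N κ T
  card : T.ncard = t
  fr : M.Indep (T ∪ P)
  dj : Disjoint T P
  col : ∀ e ∈ T, κ e ∉ X

/-- one move of the `M`-closure -/
def Mv (M N : Matroid E) (κ : E → K) (P : Set E) (X : Set K) (T T' : Set E) : Prop :=
  ∃ x y, y ∈ T ∧ κ x ∉ κ '' T ∧ κ x ∉ X ∧ x ∉ M.closure (T ∪ P) ∧ x ∉ N.closure (T \ {y}) ∧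
    T' = insert x (T \ {y})

/-- reachable -/
def Rc (M N : Matroid E) (κ : E → K) (P : Set E) (X : Set K) : Set E → Set E → Prop :=
  Relation.ReflTransGen (Mv M N κ P X)

/-- the elements which are in all reachable states -/
def Sta (M N : Matroid E) (κ : E → K) (P : Set E) (X : Set K) (T : Set E) : Set E :=
  {e | ∀ T', Rc M N κ P X T T' → e ∈ T'}

/-- the flat in which all exchanges take place -/
def Ph (M N : Matroid E) (κ : E → K) (P : Set E) (X : Set K) (T : Set E) : Set E :=
  N.closure (T \ Sta M N κ P X T)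

/-- the colours in play -/
def Pl (M N : Matroid E) (κ : E → K) (P : Set E) (X : Set K) (T : Set E) : Set K :=
  {c | c ∉ X ∧ ∃ T', Rc M N κ P X T T' ∧ c ∉ κ '' T'}

/-- the allowed colours which are unused at `T` -/
def Un (κ : E → K) (X : Set K) (T : Set E) : Set K := {c | c ∉ X ∧ c ∉ κ '' T}

/-- `F` is a lower bound for the number of elements moved by the `M`-closures -/
def LB (M N : Matroid E) (κ : E → K) (s : ℕ) (F : ℕ → ℕ) : Prop :=
  ∀ (t : ℕ) (P : Set E) (X : Set K) (T : Set E) (z : ℕ), Mx M N κ t → St M N κ P X t T →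
    (Un κ X T).Nonempty → t + P.ncard + z ≤ s → F z ≤ (T \ Sta M N κ P X T).ncard

/-! ### Rows -/

/-- MVB.  (1) `x ∉ M.closure (T ∪ P)` gives `insert x T` independent in `M` (subset of
`insert x (T ∪ P)`), it is rainbow and has `t + 1` elements, so by `Mx` it is not independent in `N`.
(2) `insert x (T \ {y})`: `M`: subset of `insert x (T ∪ P)`; `N`: `x ∉ N.closure (T \ {y})`; colours
clear; `x ∉ T` (its colour is unused), so the size is `t`; `x ∉ P` because `P ⊆ M.closure (T ∪ P)`.
Closure: `x ∈ N.closure T` by (1) and `x ∉ N.closure (T \ {y})` give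
`y ∈ N.closure (insert x (T \ {y}))` by exchange.  Back move: adds `y`, removes `x`: `κ y ≠ κ x`,
`insert y (T' ∪ P) = insert x (T ∪ P)` is `M`-independent, `T' \ {x} = T \ {y}` and
`y ∉ N.closure (T \ {y})`. -/
def MvbStmt : Prop := ∀ (E : Type u) (K : Type) [Finite E] [Finite K] (M N : Matroid E)
  (κ : E → K) (s t : ℕ) (P : Set E) (X : Set K) (T : Set E), Col M N κ s → Mx M N κ t →
  St M N κ P X t T →
  (∀ x, κ x ∉ κ '' T → x ∉ M.closure (T ∪ P) → x ∈ N.closure T) ∧
  ∀ T', Mv M N κ P X T T' → St M N κ P X t T' ∧ N.closure T' = N.closure T ∧ Mv M N κ P X T' T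

/-- RCH.  Induction on the path with MVB; moves are reversible, so the sets of reachable states of
`T` and `T'` are equal, and `Sta`, `Pl` depend only on this set; `Sta ⊆ T`, `Sta ⊆ T'`, both have `t`
elements; the number of unused allowed colours is the number of colours outside `X` minus `t`. -/
def RchStmt : Prop := ∀ (E : Type u) (K : Type) [Finite E] [Finite K] (M N : Matroid E)
  (κ : E → K) (s t : ℕ) (P : Set E) (X : Set K) (T T' : Set E), Col M N κ s → Mx M N κ t →
  St M N κ P X t T → Rc M N κ P X T T' →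
  St M N κ P X t T' ∧ N.closure T' = N.closure T ∧ Rc M N κ P X T' T ∧
  Sta M N κ P X T' = Sta M N κ P X T ∧ Pl M N κ P X T' = Pl M N κ P X T ∧
  (T' \ Sta M N κ P X T').ncard = (T \ Sta M N κ P X T).ncard ∧
  (Un κ X T').ncard = (Un κ X T).ncard

/-- CIR (used several times).  `I` independent, `x ∈ M.closure I`, `D` a set such that
`x ∈ M.closure (I \ {y})` for all `y ∈ I ∩ D`: then `x ∈ M.closure (I \ D)`.
Intersection of closures of subsets of an independent set
(`Matroid.Indep.closure_sInter_eq_biInter_closure_of_forall_subset`); `I ∩ D = ∅` trivial. -/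
def CirStmt : Prop := ∀ (E : Type u) (M : Matroid E) (I D : Set E) (x : E), M.Indep I →
  x ∈ M.closure I → (∀ y ∈ I ∩ D, x ∈ M.closure (I \ {y})) → x ∈ M.closure (I \ D)

/-- PHI.  (1) `x ∈ N.closure T` by MVB; if `y ∈ T` and `x ∉ N.closure (T \ {y})` then the move
`(x, y)` is possible, so `y ∉ Sta`.  Hence CIR with `I = T`, `D = Sta`.  (2) one move `(x, y)`:
`Sta` does not change (RCH), `x ∉ Sta` (the back move removes it), `y ∉ Sta`,
`T' \ Sta = insert x ((T \ Sta) \ {y})`, `x ∈ N.closure (T \ Sta)` by (1),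
`x ∉ N.closure ((T \ Sta) \ {y})`: exchange.  Then induction on the path. -/
def PhiStmt : Prop := ∀ (E : Type u) (K : Type) [Finite E] [Finite K] (M N : Matroid E)
  (κ : E → K) (s t : ℕ) (P : Set E) (X : Set K) (T : Set E), Col M N κ s → Mx M N κ t →
  St M N κ P X t T →
  (∀ x, κ x ∉ κ '' T → κ x ∉ X → x ∉ M.closure (T ∪ P) → x ∈ Ph M N κ P X T) ∧
  ∀ T', Rc M N κ P X T T' → Ph M N κ P X T' = Ph M N κ P X T

/-- UNC (the fundamental circuit of `x` never changes).  Let `F` be the intersection of all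
`J ⊆ T ∪ P` with `x ∈ M.closure J`; `x ∈ M.closure F` (closures of subsets of an independent set
commute with intersections).  Claim: `F ⊆ T' ∪ P` for all reachable `T'`.  Induction on the path:
`T' → T'' = insert a (T' \ {b})`, `F ⊆ T' ∪ P`.  `insert a (T' ∪ P)` is independent and contains
`T' ∪ P` and `T'' ∪ P`, `x` is in both closures, so in the closure of
`(T' ∪ P) ∩ (T'' ∪ P) = (T' ∪ P) \ {b}`.  If `b ∈ F` then also `x ∈ M.closure (F \ {b})` (again an
intersection, of `F` and `(T' ∪ P) \ {b}`, inside the independent set `T' ∪ P`), against the choice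
of `F`.  So `b ∉ F` and `F ⊆ T'' ∪ P`.  Finally `F ⊆ Sta ∪ P`: an element of `F \ P` is in `T'` for
every reachable `T'`. -/
def UncStmt : Prop := ∀ (E : Type u) (K : Type) [Finite E] [Finite K] (M N : Matroid E)
  (κ : E → K) (s t : ℕ) (P : Set E) (X : Set K) (T : Set E) (x : E), Col M N κ s → Mx M N κ t →
  St M N κ P X t T → (∀ T', Rc M N κ P X T T' → x ∈ M.closure (T' ∪ P)) →
  x ∈ M.closure (Sta M N κ P X T ∪ P)

/-- PLC.  `Pl` is the disjoint union of `Un κ X T` and `κ '' (T \ Sta)`, and `κ` is injective on `T`.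
`c ∈ Pl`, `c = κ e` with `e ∈ T`: if `e ∈ Sta` then `c ∈ κ '' T'` for all `T'`.  Conversely
`e ∈ T \ Sta`: on a path from `T` to a state without `e` look at the first step which removes `e`:
`T_i → T_(i+1) = insert x (T_i \ {e})`; `κ e ∉ κ '' T_(i+1)` (`κ` is injective on `T_i` and
`κ x ∉ κ '' T_i`), `κ e ∉ X` by `St.col`. -/
def PlcStmt : Prop := ∀ (E : Type u) (K : Type) [Finite E] [Finite K] (M N : Matroid E)
  (κ : E → K) (s t : ℕ) (P : Set E) (X : Set K) (T : Set E), Col M N κ s → Mx M N κ t →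
  St M N κ P X t T →
  (Pl M N κ P X T).ncard = (T \ Sta M N κ P X T).ncard + (Un κ X T).ncard

/-- LSD.  (1) PHI (1) at the state `T'` and `Ph T' = Ph T`.  (2) the class of `c` is independent in
`N`, and `N.closure (T \ Sta)` has rank at most `(T \ Sta).ncard`. -/
def LsdStmt : Prop := ∀ (E : Type u) (K : Type) [Finite E] [Finite K] (M N : Matroid E)
  (κ : E → K) (s t : ℕ) (P : Set E) (X : Set K) (T : Set E), Col M N κ s → Mx M N κ t →
  St M N κ P X t T →
  (∀ T' x, Rc M N κ P X T T' → κ x ∉ X → κ x ∉ κ '' T' → x ∉ Ph M N κ P X T →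
    x ∈ M.closure (T' ∪ P)) ∧
  ∀ c, (κ ⁻¹' {c} ∩ Ph M N κ P X T).ncard ≤ (T \ Sta M N κ P X T).ncard

/-- FRZ (freeze).  Every move for `insert p P` is a move for `P` (`M.closure` is monotone), so
reachable for `insert p P` from `T'` implies reachable for `P` from `T`.  `T' ∪ insert p P` is
independent, `p ∉ T' ∪ P`.  The last clause: `St` for `insert p P` at `T''` (RCH for the new
system), `p ∉ T'' ∪ P`, `Matroid.Indep.notMem_closure_sdiff_of_mem` or the insert lemma. -/
def FrzStmt : Prop := ∀ (E : Type u) (K : Type) [Finite E] [Finite K] (M N : Matroid E)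
  (κ : E → K) (s t : ℕ) (P : Set E) (X : Set K) (T T' : Set E) (p : E), Col M N κ s →
  Mx M N κ t → St M N κ P X t T → Rc M N κ P X T T' → p ∉ M.closure (T' ∪ P) →
  St M N κ (insert p P) X t T' ∧ (insert p P).ncard = P.ncard + 1 ∧
  Sta M N κ P X T ⊆ Sta M N κ (insert p P) X T' ∧
  Pl M N κ (insert p P) X T' ⊆ Pl M N κ P X T ∧
  ∀ T'', Rc M N κ (insert p P) X T' T'' → Rc M N κ P X T T'' ∧ p ∉ M.closure (T'' ∪ P)

/-- RMV.  Let `A` be the class of `c` outside `M.closure (T ∪ P)`: the class is `M`-independent, so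
at most `t + |P|` of its at least `s` elements are in `M.closure (T ∪ P)` (rank `t + |P|`), hence
`z ≤ A.ncard`.  `Y` = the set of the statement.  For `x ∈ A`: `x ∈ N.closure T` by MVB, and
`x ∈ N.closure (T \ {y})` for all `y ∈ T \ Y`, so `x ∈ N.closure Y` by CIR.  `A` is `N`-independent
and contained in `N.closure Y`, so `A.ncard ≤ Y.ncard`.  Second claim: `y ∈ Y` can be removed. -/
def RmvStmt : Prop := ∀ (E : Type u) (K : Type) [Finite E] [Finite K] (M N : Matroid E)
  (κ : E → K) (s t : ℕ) (P : Set E) (X : Set K) (T : Set E) (c : K) (z : ℕ), Col M N κ s →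
  Mx M N κ t → St M N κ P X t T → c ∉ X → c ∉ κ '' T → t + P.ncard + z ≤ s →
  z ≤ {y ∈ T | ∃ x, κ x = c ∧ x ∉ M.closure (T ∪ P) ∧ x ∉ N.closure (T \ {y})}.ncard ∧
  {y ∈ T | ∃ x, κ x = c ∧ x ∉ M.closure (T ∪ P) ∧ x ∉ N.closure (T \ {y})} ⊆
    T \ Sta M N κ P X T

/-- KIL (a frozen set kills a colour).  `L := {x | κ x = g ∧ x ∉ Ph T}`: by LSD (2) and `Col.card`,
`s ≤ L.ncard + h`; `L` is `M`-independent; by LSD (1), `L ⊆ M.closure (T2 ∪ P)` and
`L ⊆ M.closure (T1 ∪ P) ⊆ M.closure W`.  Submodularity for `L ∪ Q` and `(T2 ∪ P) ∪ L`: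
`r L + r (T2 ∪ P ∪ L ∪ Q) ≤ r (L ∪ Q) + r (T2 ∪ P ∪ L)`, the second term is
`(T2 ∪ P).ncard + Q.ncard`, the last one `(T2 ∪ P).ncard`; so
`L.ncard + Q.ncard ≤ r (L ∪ Q) ≤ r W ≤ W.ncard`. -/
def KilStmt : Prop := ∀ (E : Type u) (K : Type) [Finite E] [Finite K] (M N : Matroid E)
  (κ : E → K) (s t : ℕ) (P : Set E) (X : Set K) (T T1 T2 Q W : Set E) (g : K), Col M N κ s →
  Mx M N κ t → St M N κ P X t T → Rc M N κ P X T T1 → Rc M N κ P X T T2 → g ∉ X →
  g ∉ κ '' T1 → g ∉ κ '' T2 → M.Indep (T2 ∪ P ∪ Q) → Disjoint (T2 ∪ P) Q →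
  T1 ∪ P ∪ Q ⊆ M.closure W →
  s + Q.ncard ≤ W.ncard + (T \ Sta M N κ P X T).ncard

/-- FRJ (freeze `j` elements of `T`).  Induction on `j`, `j = 0`: `Q = ∅`, `T' = T`.  Step: let
`Q, T'` be as in the statement for `j`.  Claim: some `e ∈ T` is not in
`M.closure (Sta' ∪ (P ∪ Q))`, `Sta' = Sta (P ∪ Q) X T'`.  Otherwise `T ∪ P` (independent, size
`t + |P|`) is in a closure of rank at most `|Sta'| + |P| + j`, and `|Sta'| = t - h'`,
`h' = (T' \ Sta').ncard`, so `h' ≤ j`, against the hypothesis.  By UNC for the system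
`(P ∪ Q, T')` there is `T''` reachable from `T'` (for `P ∪ Q`) with
`e ∉ M.closure (T'' ∪ (P ∪ Q))`; apply FRZ; new `Q` is `insert e Q` (`e ∉ Q` since `Q` is in the
closure). -/
def FrjStmt : Prop := ∀ (E : Type u) (K : Type) [Finite E] [Finite K] (M N : Matroid E)
  (κ : E → K) (s t : ℕ) (P : Set E) (X : Set K) (T : Set E) (j : ℕ), Col M N κ s →
  Mx M N κ t → St M N κ P X t T →
  (∀ (i : ℕ) (P' T' : Set E), i < j → P ⊆ P' → P'.ncard = P.ncard + i → St M N κ P' X t T' →
    Rc M N κ P X T T' → i < (T' \ Sta M N κ P' X T').ncard) →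
  ∃ Q T', Q ⊆ T ∧ Q.ncard = j ∧ Disjoint P Q ∧ Rc M N κ P X T T' ∧ St M N κ (P ∪ Q) X t T' ∧
    Pl M N κ (P ∪ Q) X T' ⊆ Pl M N κ P X T ∧
    ∀ T'', Rc M N κ (P ∪ Q) X T' T'' → Rc M N κ P X T T''

/-- ONE.  Let `c ∈ Un κ X T` and `Y` the set of RMV (at least `z` elements, `Y ⊆ T`).  The `z + 1`
or more colours `c` and `κ y`, `y ∈ Y`, are different and in `Pl P X T` (after the move `(x, y)` the
colour `κ y` is unused).  None of them is in `Pl (P ∪ Q) X T'`: let `g` be unused at `T2`, reachable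
from `T'` for `P ∪ Q` (so `T2 ∪ P ∪ Q` independent, disjoint, by RCH for that system).  KIL with
`T1 = T` or `T1 = insert x (T \ {y})` and `W = insert x (T ∪ P)` gives
`s + |Q| ≤ t + |P| + 1 + h`, but `h + 2 ≤ |Q| + z` and `t + |P| + z ≤ s`. -/
def OneStmt : Prop := ∀ (E : Type u) (K : Type) [Finite E] [Finite K] (M N : Matroid E)
  (κ : E → K) (s t : ℕ) (P : Set E) (X : Set K) (T Q T' : Set E) (z : ℕ), Col M N κ s →
  Mx M N κ t → St M N κ P X t T → (Un κ X T).Nonempty → t + P.ncard + z ≤ s → Q ⊆ T →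
  Disjoint P Q → Rc M N κ P X T T' → St M N κ (P ∪ Q) X t T' →
  Pl M N κ (P ∪ Q) X T' ⊆ Pl M N κ P X T →
  (∀ T'', Rc M N κ (P ∪ Q) X T' T'' → Rc M N κ P X T T'') →
  (T \ Sta M N κ P X T).ncard + 2 ≤ Q.ncard + z →
  (Pl M N κ (P ∪ Q) X T').ncard + z + 1 ≤ (Pl M N κ P X T).ncard

/-- EXZ (the only special case: `h = z = 2` is impossible).  Suppose `h := (T \ Sta).ncard ≤ 2`; by
RMV `h = 2` and `Y = T \ Sta` (all elements of `T \ Sta` can be removed at `T`).
(1) For every state `T'` and every unused `g ∉ X` at `T'`: `L_g := {x | κ x = g ∧ x ∉ Ph T}` has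
at least `s - 2 ≥ t + |P|` elements, is `M`-independent and in `M.closure (T' ∪ P)` (LSD), so
`M.closure (T' ∪ P) = M.closure L_g` depends only on `g`; moreover the class of `g` has exactly `s`
elements, `s = t + |P| + 2`, exactly two of them, `x_1 ≠ x_2`, are in `Ph` and outside
`M.closure (T' ∪ P)`, and `T' ∪ P ∪ {x_1, x_2}` is independent.
(2) For such `T', g, x_1, x_2` no `y` satisfies `x_i ∉ N.closure (T' \ {y})`, `i = 1, 2`: the states
`T' - y + x_1` and `T' - y + x_2` both have `κ y` unused, so by (1)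
`x_1 ∈ M.closure (T' - y + x_2 ∪ P)`, against the independence of `T' ∪ P ∪ {x_1, x_2}`.
(3) So at `T` (colour `c`): `T \ Sta = {y_1, y_2}`, `y_i` can be removed only with `x_i` (both `x_i`
can remove something because they are no loops of `N`).  `T_1 := T - y_1 + x_1`, unused
`g = κ y_1`; the two elements of (1) for `T_1, g` are `y_1` and some `u`; by (2) at `T_1` the element
`x_1`, which can be removed with `y_1`, can not be removed with `u`; `u` can remove something in
`T_1 \ Sta = {x_1, y_2}`, so `y_2`.  The states `T_1 - y_2 + u` and `T - y_2 + x_2` both have `κ y_2`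
unused, so `x_1 ∈ M.closure (T - y_2 + x_2 ∪ P)` by (1): contradiction. -/
def ExzStmt : Prop := ∀ (E : Type u) (K : Type) [Finite E] [Finite K] (M N : Matroid E)
  (κ : E → K) (s t : ℕ) (P : Set E) (X : Set K) (T : Set E), Col M N κ s →
  Mx M N κ t → St M N κ P X t T → (Un κ X T).Nonempty → t + P.ncard + 2 ≤ s →
  3 ≤ (T \ Sta M N κ P X T).ncard

/-- LBA (all pairs of matroids).  Strong induction on `z`.  `z = 0` trivial, `z = 1`: RMV, `z = 2`:
EXZ.  `z ≥ 3`: suppose `h ≤ 3 z / 2 - 1`; `z ≤ h` by RMV.  `j := h + 2 - z ≤ z / 2 + 1`.  FRJ: for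
`i < j` the system `(P', T')` satisfies `t + |P'| + (z - i) ≤ s`, so `h' ≥ 3 (z - i) / 2 > i` by
induction (`i ≥ 1`; `i ≤ z / 2`), for `i = 0` by RMV.  ONE and PLC (for both systems; the numbers of
unused allowed colours are equal, RCH) give `h' + z + 1 ≤ h`, `h' ≥ 3 (z - j) / 2` by induction:
contradiction (`omega`). -/
def LbaStmt : Prop := ∀ (E : Type u) (K : Type) [Finite E] [Finite K] (M N : Matroid E)
  (κ : E → K) (s : ℕ), Col M N κ s → LB M N κ s (fun z => 3 * z / 2)

/-- MON.  Every move for `X'` is a move for `X`. -/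
def MonStmt : Prop := ∀ (E : Type u) (K : Type) [Finite E] [Finite K] (M N : Matroid E)
  (κ : E → K) (P : Set E) (X X' : Set K) (T : Set E), X ⊆ X' →
  (∀ T', Rc M N κ P X' T T' → Rc M N κ P X T T') ∧
  Sta M N κ P X T ⊆ Sta M N κ P X' T ∧ Pl M N κ P X' T ⊆ Pl M N κ P X T

/-- ADD (one more colour).  `S' := Sta P (insert a X) T`, `St` holds for `insert a X` since `a` is
unused.  Let `x` be in the class of `a`, `x ∉ M.closure (S' ∪ P)`: by UNC for `insert a X` there is
`T'` reachable for `insert a X` with `x ∉ M.closure (T' ∪ P)`; `a` is unused at `T'` (`St.col`), and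
`T'` is reachable for `X` (MON), so `x ∈ Ph P X T` by PHI.  So at most
`h = (T \ Sta P X T).ncard` elements of the class are outside `M.closure (S' ∪ P)` (LSD (2)), and at
most `|S'| + |P|` inside (`M`-independent).  `s ≤ h + |S'| + |P|`, `|S'| = t - h'`. -/
def AddStmt : Prop := ∀ (E : Type u) (K : Type) [Finite E] [Finite K] (M N : Matroid E)
  (κ : E → K) (s t : ℕ) (P : Set E) (X : Set K) (T : Set E) (a : K) (z : ℕ), Col M N κ s →
  Mx M N κ t → St M N κ P X t T → a ∉ X → a ∉ κ '' T → t + P.ncard + z ≤ s →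
  (T \ Sta M N κ P (insert a X) T).ncard + z ≤ (T \ Sta M N κ P X T).ncard

/-- MUL.  Induction on the number of unused allowed colours with ADD, beginning with `LB`. -/
def MulStmt : Prop := ∀ (E : Type u) (K : Type) [Finite E] [Finite K] (M N : Matroid E)
  (κ : E → K) (s t : ℕ) (P : Set E) (X : Set K) (T : Set E) (z : ℕ) (F : ℕ → ℕ), Col M N κ s →
  LB M N κ s F → Mx M N κ t → St M N κ P X t T → (Un κ X T).Nonempty → t + P.ncard + z ≤ s →
  F z + ((Un κ X T).ncard - 1) * z ≤ (T \ Sta M N κ P X T).ncard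

/-- TWO (the `M`-closure and the `N`-closure touch disjoint parts of `T`, if they start with
different unused colours).  Write `D := T \ Sta N M κ ∅ X2 T` and suppose some `e0 ∈ D` is not in
`Sta M N κ ∅ X1 T`.
(1) Call a state of the `M`-closure quiet if no possible move `(x, y)` has `y ∈ D`.  Let `AR` be
reachability by moves which start at quiet states.  On a path from `T` to a state without `e0` there
is a first state which is not quiet (moves from quiet states do not remove elements of `D`): so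
there is `T1` with `AR T T1`, not quiet.  `AR` preserves: `D ⊆ T1`, and
`N.closure (T1 \ D) = N.closure (T \ D)` (move `(x, y)` at a quiet state `T'`: all `y'` with
`x ∉ N.closure (T' \ {y'})` are outside `D`, so `x ∈ N.closure (T' \ D)` by CIR; exchange).
(2) Let `(s1, _)` be a move at `T1` removing an element of `D`, `C := {y ∈ D | s1 ∉ N.closure
(T1 \ {y})}`, nonempty, `C ⊆ D`.  In the same way there is a state `T2` of the `N`-closure, reachable
from `T`, `C ⊆ T2`, with a possible move `(s2, e)`, `e ∈ C`.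
(3) `S := Sta N M κ ∅ X2 T = T \ D`, `Q := T2 \ S`, `B := T1 \ D`, `T3 := B ∪ Q`.  `C ⊆ Q`.
`N`: `N.closure B = N.closure S`, so `N.closure (B ∪ Q) = N.closure (S ∪ Q) = N.closure T2`, of rank
`t`, and `|B| + |Q| ≤ t`, so `T3` is `N`-independent, `B`, `Q` disjoint, `|T3| = t`;
`s2 ∉ N.closure T2`, so `insert s2 T3` is `N`-independent.  `s1 ∈ N.closure (B ∪ C)` (MVB and CIR at
`T1`), `s1 ∉ N.closure (T1 \ {e})`.  If `s1 ∈ N.closure (insert s2 T3 \ {e})` then, intersecting with
`N.closure (B ∪ C)` inside the independent set `insert s2 T3`,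
`s1 ∈ N.closure ((B ∪ C) \ {e})`, contradiction.
`M`: `M.closure Q = M.closure D` (PHI for the `N`-closure), so `M.closure T3 = M.closure T1`, `T3` is
`M`-independent, `s1 ∉ M.closure T1`, `insert s1 T3` is `M`-independent; `s2 ∈ M.closure Q` (PHI),
`s2 ∉ M.closure (T2 \ {e})`, and as before `s2 ∉ M.closure (insert s1 T3 \ {e})`.
Colours: `κ b = κ q` (`b ∈ B`, `q ∈ Q`) would be a colour outside `κ '' D` and `κ '' S`, so unused at
`T`, not in `X1` (`St.col` at `T1`) and not in `X2`; the same for `κ s1`, `κ s2`.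
So `insert s1 (insert s2 (T3 \ {e}))` is `RI` with `t + 1` elements, against `Mx`. -/
def TwoStmt : Prop := ∀ (E : Type u) (K : Type) [Finite E] [Finite K] (M N : Matroid E)
  (κ : E → K) (s t : ℕ) (X1 X2 : Set K) (T : Set E), Col M N κ s → Mx M N κ t →
  St M N κ ∅ X1 t T → St N M κ ∅ X2 t T → (∀ c, c ∉ κ '' T → c ∈ X1 ∨ c ∈ X2) →
  Disjoint (T \ Sta M N κ ∅ X1 T) (T \ Sta N M κ ∅ X2 T)

/-- BAR (arithmetic). `φ(h) = h (h + 1) - (h + z) (b' + 1)` is convex in `h`, negative at `0` and at
`b z - 1`, where `b z = z (z - 1) / 2 + min z 4`, `b' = b (z - 1)` (at `b z - 1` it is `-2 z - 6` for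
`z ≥ 5`). -/
def BarStmt : Prop := ∀ z h : ℕ, 1 ≤ z →
  (h + z) * (((z - 1) * (z - 1 - 1) / 2 + min (z - 1) 4) + 1) ≤ h * (h + 1) →
  z * (z - 1) / 2 + min z 4 ≤ h

/-- BCL (`M` = partition matroid with exactly `s` classes).  `M.Indep I ↔ InjOn r I`; `r` is a
bijection from every colour class to `R` (it is injective on it, `s ≤` size, `card R = s`);
`x ∈ M.closure A ↔ r x ∈ r '' A`.  By MON we may enlarge `X` such that exactly one allowed colour is
unused.  Induction on `z` (all `t, P, X, T`).  `z = 0` trivial.  `h := (T \ Sta).ncard`,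
`|Pl| = h + 1` (PLC).  For a class `ρ ∉ r '' (Sta ∪ P)` (there are `s - (t - h) - |P| ≥ h + z` of
them) let `x` be an element of class `ρ`; by UNC there is `T'` reachable with
`x ∉ M.closure (T' ∪ P)`; FRZ with `p = x`; by induction the frozen system has at least
`b (z - 1) + 1` colours in play (PLC, RCH); for such a colour `g`, unused at a state `T''` of the
frozen system, the element `x_g` of class `ρ` and colour `g` is not in `M.closure (T'' ∪ P)`
(`r x_g = r x`), so `x_g ∈ Ph` (PHI).  Count the pairs `(ρ, g)` with `x_g ∈ Ph`: at least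
`(h + z) (b (z - 1) + 1)`, at most `(h + 1) h` (LSD (2)).  BAR. -/
def BclStmt : Prop := ∀ (E : Type u) (K : Type) [Finite E] [Finite K] (M N : Matroid E)
  (κ : E → K) (s : ℕ) (R : Type u) [Fintype R] (r : E → R), Col M N κ s →
  (∀ I, M.Indep I ↔ InjOn r I) → Fintype.card R = s →
  LB M N κ s (fun z => z * (z - 1) / 2 + min z 4)

/-- TRN (`M` = partition matroid, any number of classes; helper64's exponential potential, note 2).
`4 n ≤ k ^ 2`, `z = k + 1` gives more than `n - 1` elements. -/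
def TrnStmt : Prop := ∀ (E : Type u) (K : Type) [Finite E] [Finite K] (M N : Matroid E)
  (κ : E → K) (s : ℕ) (R : Type u) [Fintype R] (r : E → R), Col M N κ s →
  (∀ I, M.Indep I ↔ InjOn r I) → LB M N κ s (fun z => (z - 1) ^ 2 / 4)

/-- ASM (assembly in the coloured form).  Let `t` be the maximal size of a rainbow common
independent set and `T` one of size `t`; suppose `t ≤ τ`.  `m = card K`, `U` = the `m - t` unused
colours, `z := s - t` (`t < s`, `t < m`).  First case: `X = U \ {c}`: `F (s - τ) ≤ F z ≤ h ≤ t ≤ τ`.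
The same for the `N`-closure with `G`.  Second case: `c ∈ U`, `X1 := U \ {c}`, `X2 := {c}`; TWO,
`LB` and MUL: `F z + G z + (m - t - 2) z ≤ t`. -/
def AsmStmt : Prop := ∀ (E : Type u) (K : Type) [Finite E] [Fintype K] (M N : Matroid E)
  (κ : E → K) (s τ : ℕ) (F G : ℕ → ℕ), Col M N κ s → LB M N κ s F → LB N M κ s G →
  Monotone F → Monotone G → τ < s →
  (τ < Fintype.card K ∧ (τ < F (s - τ) ∨ τ < G (s - τ)) ∨
    τ + 2 ≤ Fintype.card K ∧
      τ < F (s - τ) + G (s - τ) + (Fintype.card K - τ - 2) * (s - τ)) →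
  ∃ T, RI M N κ T ∧ τ < T.ncard

/-! ### The final statement -/

/-- Lower bounds which are available for one of the two matroids: `any` matroid; a partition matroid
(or a matroid `M` in which all partial transversals of the partition `r` are independent), every
`S i` a partial transversal; the same with exactly `s` classes. -/
inductive Bd {α : Type u} (M : Matroid α) {m : ℕ} (S : Fin m → Finset α) (s : ℕ) : (ℕ → ℕ) → Prop
  | any : Bd M S s (fun z => 3 * z / 2)
  | par (R : Type u) (hR : Finite R) (r : α → R) (hS : ∀ i, InjOn r (S i : Set α))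
      (h : ∀ I : Set α, (∀ x ∈ I, ∃ i, x ∈ S i) → InjOn r I → M.Indep I) :
      Bd M S s (fun z => max (3 * z / 2) ((z - 1) ^ 2 / 4))
  | arr (R : Type u) (hR : Finite R) (r : α → R) (hS : ∀ i, InjOn r (S i : Set α))
      (h : ∀ I : Set α, (∀ x ∈ I, ∃ i, x ∈ S i) → InjOn r I → M.Indep I) (hs : Nat.card R = s) :
      Bd M S s (fun z => z * (z - 1) / 2 + min z 4)

/-- FIN.  `E := (i : Fin m) × {x // x ∈ S i}`, `κ = Sigma.fst`, `v e := (e.2 : α)`.  For `Bd.any` the
matroid on `E` is `M.comap v` (`Matroid.comap_indep_iff`), for `Bd.par`, `Bd.arr` it is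
`(Matroid.freeOn univ).comap (r ∘ v)`, i.e. `Indep I ↔ InjOn (r ∘ v) I`; `Col` is clear.  `LB` by
LBA, LBA and TRN (maximum), BCL.  ASM gives `T`; `J := κ '' T`, `g i` = the element of `T` of colour
`i` (anything for `i ∉ J`).  In all cases independence of `T` in the matroid on `E` implies
`InjOn v T` and `M.Indep (v '' T)`. -/
def FinStmt : Prop := ∀ (α : Type u) (M N : Matroid α) (m s τ : ℕ) (S : Fin m → Finset α)
  (F G : ℕ → ℕ), (∀ i, M.Indep (S i : Set α)) → (∀ i, N.Indep (S i : Set α)) →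
  (∀ i, s ≤ (S i).card) → Bd M S s F → Bd N S s G → τ < s →
  (τ < m ∧ (τ < F (s - τ) ∨ τ < G (s - τ)) ∨
    τ + 2 ≤ m ∧ τ < F (s - τ) + G (s - τ) + (m - τ - 2) * (s - τ)) →
  ∃ (J : Finset (Fin m)) (g : Fin m → α), τ < J.card ∧ (∀ i ∈ J, g i ∈ S i) ∧
    InjOn g (J : Set (Fin m)) ∧ M.Indep (g '' (J : Set (Fin m))) ∧ N.Indep (g '' (J : Set (Fin m)))

end Pool.Agent.RCM
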