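import Pool.Agent.RCM.Stmts

/-!
# Squad RCM (MP_33201b_co), part 2: partition matroids with any number of classes, final statement
-/

set_option autoImplicit false

namespace Pool.Agent.RCM

open Set

universe u

/-- TRQ (`M` = partition matroid, any number of classes): helper64's potential (Pot.lean, Num.lean,
`crit_explicit`): `4 B < z ^ 2` excludes `h ≤ B`. -/
def TrqStmt : Prop := ∀ (E : Type u) (K : Type) [Finite E] [Finite K] (M N : Matroid E)
  (κ : E → K) (s : ℕ) (R : Type u) [Finite R] (r : E → R), Col M N κ s →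
  (∀ I, M.Indep I ↔ InjOn r I) → LB M N κ s (fun z => (z ^ 2 + 3) / 4)

/-- TRA (the same, asymptotic; helper64's `crit_asymp`) -/
def TraStmt : Prop := ∀ ε : ℝ, 0 < ε → ∃ z₀ : ℕ, ∀ (E : Type u) (K : Type) [Finite E] [Finite K]
  (M N : Matroid E) (κ : E → K) (s : ℕ) (R : Type u) [Finite R] (r : E → R), Col M N κ s →
  (∀ I, M.Indep I ↔ InjOn r I) →
  LB M N κ s (fun z => if z < z₀ then 0 else ⌊(1 / 2 - ε) * (z : ℝ) ^ 2⌋₊)

/-- `M` is (or contains) the partition matroid of `r`: every set which meets every class of `r` in at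
most one element is independent; every `S i` is such a set. -/
def Part {α : Type u} (M : Matroid α) {m : ℕ} (S : Fin m → Finset α) (R : Type u) (r : α → R) :
    Prop :=
  (∀ i, InjOn r (S i : Set α)) ∧
    ∀ I : Set α, (∀ x ∈ I, ∃ i, x ∈ S i) → InjOn r I → M.Indep I

/-- Lower bounds `F z` for the number of elements which are moved by the closure on the side of `M`,
if `z + |T| ≤ s`: `M` any matroid; `M` a partition matroid; a partition matroid with exactly `s`
classes. -/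
inductive Bnd {α : Type u} (M : Matroid α) {m : ℕ} (S : Fin m → Finset α) (s : ℕ) (ε : ℝ) (z₀ : ℕ) :
    (ℕ → ℕ) → Prop
  | any : Bnd M S s ε z₀ (fun z => 3 * z / 2)
  | par (R : Type u) (hR : Finite R) (r : α → R) (h : Part M S R r) :
      Bnd M S s ε z₀ (fun z => max (3 * z / 2) ((z ^ 2 + 3) / 4))
  | pas (R : Type u) (hR : Finite R) (r : α → R) (h : Part M S R r) :
      Bnd M S s ε z₀ (fun z => if z < z₀ then 0 else ⌊(1 / 2 - ε) * (z : ℝ) ^ 2⌋₊)
  | arr (R : Type u) (hR : Finite R) (r : α → R) (h : Part M S R r) (hs : Nat.card R = s) :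
      Bnd M S s ε z₀ (fun z => z * (z - 1) / 2 + min z 4)

/-- FIQ.  As FIN (Helper68_RCM/FIN.lean), with TRQ, TRA in place of TRN.  `fun z => if z < z₀ ..` is
monotone only for `ε ≤ 1 / 2` (for `ε > 1 / 2` the floor is `0`: also monotone). -/
def FiqStmt : Prop := ∀ ε : ℝ, 0 < ε → ∃ z₀ : ℕ, ∀ (α : Type u) (M N : Matroid α) (m s τ : ℕ)
  (S : Fin m → Finset α) (F G : ℕ → ℕ), (∀ i, M.Indep (S i : Set α)) →
  (∀ i, N.Indep (S i : Set α)) → (∀ i, s ≤ (S i).card) → Bnd M S s ε z₀ F → Bnd N S s ε z₀ G →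
  τ < s →
  (τ < m ∧ (τ < F (s - τ) ∨ τ < G (s - τ)) ∨
    τ + 2 ≤ m ∧ τ < F (s - τ) + G (s - τ) + (m - τ - 2) * (s - τ)) →
  ∃ (J : Finset (Fin m)) (g : Fin m → α), τ < J.card ∧ (∀ i ∈ J, g i ∈ S i) ∧
    InjOn g (J : Set (Fin m)) ∧ M.Indep (g '' (J : Set (Fin m))) ∧ N.Indep (g '' (J : Set (Fin m)))

end Pool.Agent.RCM
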