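import Pool.Agent.RCM.StmtsA

/-!
# Squads RCM, RCA (MP_33201b_co): the final statement
-/

set_option autoImplicit false

namespace Pool.Agent.RCM

open Set

universe u

/-- Lower bounds `F z` for the number of elements which are moved by the closure on the side of `M`,
if `z + |T| ≤ s`: `M` any matroid; `M` (contains) a partition matroid in which all `S i` are
independent; a partition matroid with exactly `s` classes. -/
inductive Bnc {α : Type u} (M : Matroid α) {m : ℕ} (S : Fin m → Finset α) (s C : ℕ) (ε : ℝ)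
    (z₀ : ℕ) : (ℕ → ℕ) → Prop
  | any : Bnc M S s C ε z₀ (fun z => max (3 * z / 2) (if z < z₀ then 0 else C * z))
  | par (R : Type u) (hR : Finite R) (r : α → R) (h : Part M S R r) :
      Bnc M S s C ε z₀ (fun z => max (max (3 * z / 2) ((z ^ 2 + 3) / 4))
        (if z < z₀ then 0 else ⌊(1 / 2 - ε) * (z : ℝ) ^ 2⌋₊))
  | arr (R : Type u) (hR : Finite R) (r : α → R) (h : Part M S R r) (hs : Nat.card R = s) :
      Bnc M S s C ε z₀ (fun z => z * (z - 1) / 2 + min z 4)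

/-- FIR.  As FIQ, with SUP. -/
def FirStmt : Prop := ∀ (C : ℕ) (ε : ℝ), 0 < ε → ∃ z₀ : ℕ, ∀ (α : Type u) (M N : Matroid α)
  (m s τ : ℕ) (S : Fin m → Finset α) (F G : ℕ → ℕ), (∀ i, M.Indep (S i : Set α)) →
  (∀ i, N.Indep (S i : Set α)) → (∀ i, s ≤ (S i).card) → Bnc M S s C ε z₀ F →
  Bnc N S s C ε z₀ G → τ < s →
  (τ < m ∧ (τ < F (s - τ) ∨ τ < G (s - τ)) ∨
    τ + 2 ≤ m ∧ τ < F (s - τ) + G (s - τ) + (m - τ - 2) * (s - τ)) →
  ∃ (J : Finset (Fin m)) (g : Fin m → α), τ < J.card ∧ (∀ i ∈ J, g i ∈ S i) ∧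
    InjOn g (J : Set (Fin m)) ∧ M.Indep (g '' (J : Set (Fin m))) ∧ N.Indep (g '' (J : Set (Fin m)))

end Pool.Agent.RCM
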