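import Pool.Agent.RCM.Stmts2

/-!
# Squad RCA (MP_33201b_co, helper6): superlinear closures for ALL pairs of matroids

Result (`SupStmt`): for every `C` there is `z₀` such that every `M`-closure with corank `z ≥ z₀` moves at
least `C * z` elements (any two matroids).  Consequence: asymptotic full rainbow theorem.

Idea (note 3421).  `Gn P X a T` = allowed colours which are unused after at most `a` moves.  `Op`: moves
of the current system and freezes of arbitrary elements.  Choose a base `(T, P)` and `m, k` (`HML`)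
such that from every `(T', P')` at most `k` operations away all but `D` colours of
`F = Gn P X (k + m + 1) T` are freed within `m` moves (`Rob`).  Then `L = Lc N κ F T c` (the elements of
colour `c` outside the flat spanned by the `F`-part of `T`) has rank at most `t + |P| + m` together
with `T' ∪ P` (`LCR`).  For `Z ⊆ T` there is `(T', P')` with `P' = P ∪ (Z \ T')`, `|Z \ T'| = w`
(`SAF`: freeze the first element of `Z` which is removed, `w` times), so `T' ∪ Z ∪ P` is independent and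
submodularity gives `r (L ∪ (Z ∩ T') ∪ P) ≤ r (L ∪ Z ∪ P) + m - w` (`STP`).  Iterate from `Z = T` until
`Z` contains nearly no element of the `F`-part of `T` (`ITR`): then `|L|` is too small.
-/

set_option autoImplicit false

namespace Pool.Agent.RCM

open Set

universe u

variable {E : Type u} {K : Type}

/-- `T'` is reachable from `T` by at most `a` moves of the system with frozen set `P` -/
inductive Rn (M N : Matroid E) (κ : E → K) (P : Set E) (X : Set K) : ℕ → Set E → Set E → Prop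
  | rfl (a : ℕ) (T : Set E) : Rn M N κ P X a T T
  | step (a : ℕ) (T T' T'' : Set E) : Rn M N κ P X a T T' → Mv M N κ P X T' T'' →
      Rn M N κ P X (a + 1) T T''

/-- at most `a` operations (moves of the current system, freezes) lead from `(T, P)` to `(T', P')` -/
inductive Op (M N : Matroid E) (κ : E → K) (X : Set K) : ℕ → Set E → Set E → Set E → Set E → Prop
  | rfl (a : ℕ) (T P : Set E) : Op M N κ X a T P T P
  | move (a : ℕ) (T P T' P' T'' : Set E) : Op M N κ X a T P T' P' → Mv M N κ P' X T' T'' →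
      Op M N κ X (a + 1) T P T'' P'
  | frz (a : ℕ) (T P T' P' : Set E) (r : E) : Op M N κ X a T P T' P' → r ∉ M.closure (T' ∪ P') →
      Op M N κ X (a + 1) T P T' (insert r P')

/-- the allowed colours which are unused after at most `a` moves -/
def Gn (M N : Matroid E) (κ : E → K) (P : Set E) (X : Set K) (a : ℕ) (T : Set E) : Set K :=
  {c | c ∉ X ∧ ∃ T', Rn M N κ P X a T T' ∧ c ∉ κ '' T'}

/-- robust base: from everything which is at most `k` operations away, all but `D` colours of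
`Gn P X (k + m + 1) T` are freed within `m` moves -/
def Rob (M N : Matroid E) (κ : E → K) (X : Set K) (k m D : ℕ) (T P : Set E) : Prop :=
  ∀ T' P', Op M N κ X k T P T' P' →
    (Gn M N κ P X (k + m + 1) T \ Gn M N κ P' X m T').ncard ≤ D

/-- the elements of colour `c` outside the flat spanned by the elements of `T` with colours in `F` -/
def Lc (N : Matroid E) (κ : E → K) (F : Set K) (T : Set E) (c : K) : Set E :=
  {x | κ x = c ∧ x ∉ N.closure {y ∈ T | κ y ∈ F}}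

/-- the rank as a natural number -/
noncomputable def rr (M : Matroid E) (A : Set E) : ℕ := (M.eRk A).toNat

/-- RRB (rank, all sets are finite).  `Matroid.eRk_mono`, `eRk_inter_add_eRk_union_le`,
`eRk_le_encard`, `Indep.eRk_eq_encard`, `eRk_union_le_eRk_add_encard`, `eRk_closure_eq`
(`A ⊆ M.closure B` gives `A ∪ B ⊆ M.closure B ∪ B`; `Matroid.eRk_union_closure_right_eq`), all ranks
are `≤ encard < ⊤`. -/
def RrbStmt : Prop := ∀ (E : Type u) [Finite E] (M : Matroid E) (A B : Set E),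
  (A ⊆ B → rr M A ≤ rr M B) ∧ rr M (A ∩ B) + rr M (A ∪ B) ≤ rr M A + rr M B ∧
  rr M A ≤ A.ncard ∧ (M.Indep A → rr M A = A.ncard) ∧ rr M (A ∪ B) ≤ rr M A + B.ncard ∧
  (A ⊆ M.closure B → rr M (A ∪ B) = rr M B)

/-- RNB (facts on `Rn`).  Inductions on `Rn`.  Third: a move for `P'` is a move for `P ⊆ P'`
(`M.closure` is monotone).  Last: `T'' = insert x (T' \ {y})` gives
`T \ T'' ⊆ insert y (T \ T')`. -/
def RnbStmt : Prop := ∀ (E : Type u) (K : Type) [Finite E] (M N : Matroid E) (κ : E → K)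
  (X : Set K),
  (∀ (P : Set E) (a b : ℕ) (T T' : Set E), a ≤ b → Rn M N κ P X a T T' → Rn M N κ P X b T T') ∧
  (∀ (P : Set E) (a b : ℕ) (T T' T'' : Set E), Rn M N κ P X a T T' → Rn M N κ P X b T' T'' →
    Rn M N κ P X (a + b) T T'') ∧
  (∀ (P P' : Set E) (a : ℕ) (T T' : Set E), P ⊆ P' → Rn M N κ P' X a T T' →
    Rn M N κ P X a T T') ∧
  (∀ (P : Set E) (a : ℕ) (T T' : Set E), Rn M N κ P X a T T' → Rc M N κ P X T T') ∧
  (∀ (P : Set E) (a : ℕ) (T T' : Set E), Rn M N κ P X a T T' → (T \ T').ncard ≤ a)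

/-- OPB (facts on `Op`).  Inductions on `Op`; third: RNB (monotone in the frozen set, in `a`);
fourth: for a move MVB (`mvb'`) and RCH (`rch'`, one step is `Rc`), for a freeze the insert lemma
(`r ∈ M.E` because `{r}` is in the class of `κ r`, independent; `r ∉ T' ∪ P'`).  See
`Pool.Agent.RCM.H35.mvb' rch'` in Pool/Agent/Helper35_RCM/Base.lean. -/
def OpbStmt : Prop := ∀ (E : Type u) (K : Type) [Finite E] [Finite K] (M N : Matroid E)
  (κ : E → K) (X : Set K),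
  (∀ (a b : ℕ) (T P T' P' : Set E), a ≤ b → Op M N κ X a T P T' P' → Op M N κ X b T P T' P') ∧
  (∀ (a b : ℕ) (T P T' P' T'' P'' : Set E), Op M N κ X a T P T' P' →
    Op M N κ X b T' P' T'' P'' → Op M N κ X (a + b) T P T'' P'') ∧
  (∀ (a : ℕ) (T P T' P' : Set E), Op M N κ X a T P T' P' →
    P ⊆ P' ∧ P'.ncard ≤ P.ncard + a ∧ Rn M N κ P X a T T') ∧
  (∀ (s t a : ℕ) (T P T' P' : Set E), Col M N κ s → Mx M N κ t → St M N κ P X t T →
    Op M N κ X a T P T' P' → St M N κ P' X t T' ∧ (Un κ X T').ncard = (Un κ X T).ncard)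

/-- GNB (facts on `Gn`).  RNB, OPB; `Op k T P T' P'` gives `Rn k T T'` for `P`, and `Rn m T' T''` for
`P'` is `Rn m T' T''` for `P`. -/
def GnbStmt : Prop := ∀ (E : Type u) (K : Type) [Finite E] [Finite K] (M N : Matroid E)
  (κ : E → K) (X : Set K),
  (∀ (P : Set E) (a b : ℕ) (T : Set E), a ≤ b → Gn M N κ P X a T ⊆ Gn M N κ P X b T) ∧
  (∀ (k m : ℕ) (T P T' P' : Set E), Op M N κ X k T P T' P' →
    Gn M N κ P' X m T' ⊆ Gn M N κ P X (k + m) T) ∧
  (∀ (P : Set E) (a : ℕ) (T : Set E), Gn M N κ P X a T ⊆ Pl M N κ P X T)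

/-- GLO.  `c` unused and allowed; RMV (`rmv'`) gives a set `Y ⊆ T` with at least `z` elements which can
be removed by one move `(x, y)`; the colour of `y` is then unused (`κ` is injective on `T`,
`κ x ∉ κ '' T`) and allowed (`St.col`); `κ` is injective on `Y`. -/
def GloStmt : Prop := ∀ (E : Type u) (K : Type) [Finite E] [Finite K] (M N : Matroid E)
  (κ : E → K) (s t : ℕ) (P : Set E) (X : Set K) (T : Set E) (a z : ℕ), Col M N κ s →
  Mx M N κ t → St M N κ P X t T → (Un κ X T).Nonempty → 1 ≤ a → t + P.ncard + z ≤ s →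
  z ≤ (Gn M N κ P X a T).ncard

/-- HML (hierarchical minimality).  Induction on `I` (all `T`, `P`); `I = 0` impossible.  `I + 1`: if
`(T, P)` is robust for `k = g (A I)`, `m = A I`, take it.  Otherwise there is `(T₁, P₁)`, `g (A I)`
operations away, with more than `D` colours in the difference; as
`Gn P₁ (A I) T₁ ⊆ Gn P (g (A I) + A I) T ⊆ Gn P (A (I + 1)) T` (GNB) this gives
`|Gn P₁ (A I) T₁| + D + 1 ≤ |Gn P (A (I + 1)) T| < (I + 1) (D + 1)`; induction for `(T₁, P₁)` and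
OPB (composition, `g (A I) + A I ≤ A (I + 1)`). -/
def HmlStmt : Prop := ∀ (E : Type u) (K : Type) [Finite E] [Finite K] (M N : Matroid E)
  (κ : E → K) (X : Set K) (g A : ℕ → ℕ) (D : ℕ), (∀ i, A (i + 1) = g (A i) + A i + 1) →
  ∀ (I : ℕ) (T P : Set E), (Gn M N κ P X (A I) T).ncard < I * (D + 1) →
  ∃ (i : ℕ) (T' P' : Set E), i < I ∧ Op M N κ X (A I) T P T' P' ∧
    Rob M N κ X (g (A i)) (A i) D T' P'

/-- CLF (the flat of a bounded closure).  `G := Gn P X (b + 1) T`, `R T' := {y ∈ T' | κ y ∈ G}`.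
(a) `a ≤ b`, `Rn a T T'`, `x` possible at `T'` (colour unused and allowed,
`x ∉ M.closure (T' ∪ P)`): for `y ∈ T'` with `κ y ∉ G` we have `x ∈ N.closure (T' \ {y})` (otherwise
the move `(x, y)` frees `κ y` within `a + 1 ≤ b + 1` moves; `κ y ∉ X` by `St.col`), so
`x ∈ N.closure (R T')` by CIR (`x ∈ N.closure T'` by MVB).
(b) `N.closure (R T') = N.closure (R T)` for `Rn a T T'`, `a ≤ b`: induction; a move `(x, y)` at `T'`
(after `a < b` moves): `κ x ∈ G` (unused at `T'`), `κ y ∈ G`, so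
`R T'' = insert x (R T' \ {y})`, `x ∈ N.closure (R T')` by (a), `x ∉ N.closure (R T' \ {y})`:
exchange. -/
def ClfStmt : Prop := ∀ (E : Type u) (K : Type) [Finite E] [Finite K] (M N : Matroid E)
  (κ : E → K) (s t : ℕ) (P : Set E) (X : Set K) (T : Set E) (b : ℕ), Col M N κ s →
  Mx M N κ t → St M N κ P X t T → ∀ (T'' : Set E) (x : E), Rn M N κ P X b T T'' → κ x ∉ X →
  κ x ∉ κ '' T'' → x ∉ M.closure (T'' ∪ P) →
  x ∈ N.closure {y ∈ T | κ y ∈ Gn M N κ P X (b + 1) T}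

/-- LCR.  First: the class of `c` is `N`-independent, at most `|R|` of its elements are in
`N.closure R`; `Lc ⊆` class of `c`, `M`-independent.  Second: `c` is unused at `T''`, reachable from
`T'` by `m` moves for `P'`, hence from `T` by `k + m` moves for `P` (OPB, RNB).  CLF with `b = k + m`:
`Lc ⊆ M.closure (T'' ∪ P)`.  `Lc ∪ T' ∪ P ⊆ (Lc ∪ (T'' ∪ P)) ∪ (T' \ T'')`, rank at most
`(t + |P|) + |T' \ T''|`, and `|T' \ T''| ≤ m` (RNB); RRB. -/
def LcrStmt : Prop := ∀ (E : Type u) (K : Type) [Finite E] [Finite K] (M N : Matroid E)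
  (κ : E → K) (s t : ℕ) (P : Set E) (X : Set K) (T : Set E) (k m : ℕ), Col M N κ s →
  Mx M N κ t → St M N κ P X t T →
  (∀ (F : Set K) (c : K), s ≤ (Lc N κ F T c).ncard + {y ∈ T | κ y ∈ F}.ncard ∧
    rr M (Lc N κ F T c) = (Lc N κ F T c).ncard) ∧
  ∀ (T' P' : Set E) (c : K), Op M N κ X k T P T' P' → c ∈ Gn M N κ P' X m T' →
    rr M (Lc N κ (Gn M N κ P X (k + m + 1) T) T c ∪ T' ∪ P) ≤ t + P.ncard + m

/-- SA1 (the first element of `Z` which is removed).  Claim, by induction on `Rn a T T₁`: either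
`Z ∩ T ⊆ T₁`, or the conclusion holds with `a` in place of `m`.  Step `T₁ → T₂ = insert x (T₁ \ {y₁})`
with `Z ∩ T ⊆ T₁`: if `y₁ ∉ Z ∩ T` then `Z ∩ T ⊆ T₂`; if `y₁ ∈ Z ∩ T` take `T' = T₂`, `y' = y₁`:
`insert x (T₁ ∪ P)` is independent and equal to `insert y₁ (T₂ ∪ P)`; `Z \ T ⊆ P` is disjoint from
`T₂` (`St`).  At the end `κ y` is unused, so `y ∈ Z ∩ T` is not in `T₁`. -/
def Sa1Stmt : Prop := ∀ (E : Type u) (K : Type) [Finite E] [Finite K] (M N : Matroid E)
  (κ : E → K) (s t : ℕ) (P : Set E) (X : Set K) (T : Set E) (m : ℕ) (Z : Set E) (y : E),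
  Col M N κ s → Mx M N κ t → St M N κ P X t T → Z \ T ⊆ P → y ∈ Z → y ∈ T →
  κ y ∈ Gn M N κ P X m T →
  ∃ (T' : Set E) (y' : E), Op M N κ X m T P T' P ∧ y' ∉ M.closure (T' ∪ P) ∧ y' ∈ Z ∧ y' ∈ T ∧
    Z \ T' = insert y' (Z \ T)

/-- SAF (`Z`-safe wandering).  For `j ≤ w` there are `T', P'` with `Op (j * (m + 1)) T P T' P'`,
`P' = P ∪ (Z \ T')`, `|Z \ T'| = j`.  Step: at least `D + w - j > D` elements of `Z ∩ T'` have
colours in `F` (`κ` is injective on `T'`), so one, `y`, has its colour in `Gn P' m T'`; SA1 and a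
freeze. -/
def SafStmt : Prop := ∀ (E : Type u) (K : Type) [Finite E] [Finite K] (M N : Matroid E)
  (κ : E → K) (s t : ℕ) (P : Set E) (X : Set K) (T : Set E) (m w D : ℕ) (F : Set K) (Z : Set E),
  Col M N κ s → Mx M N κ t → St M N κ P X t T →
  (∀ T' P', Op M N κ X (w * (m + 1)) T P T' P' → (F \ Gn M N κ P' X m T').ncard ≤ D) →
  Z ⊆ T → D + w ≤ {y ∈ Z | κ y ∈ F}.ncard →
  ∃ T' P', Op M N κ X (w * (m + 1)) T P T' P' ∧ P' = P ∪ (Z \ T') ∧ (Z \ T').ncard = w

/-- STP.  `A := L ∪ Z ∪ P`, `B := L ∪ T ∪ P`: `L ∪ (Z ∩ T) ∪ P ⊆ A ∩ B`, and `A ∪ B` contains the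
independent set `T ∪ (P ∪ (Z \ T))` of size `t + |P| + w`; RRB. -/
def StpStmt : Prop := ∀ (E : Type u) [Finite E] (M : Matroid E) (L Z T P : Set E) (t m w : ℕ),
  M.Indep (T ∪ (P ∪ (Z \ T))) → Disjoint T P → Disjoint P (Z \ T) → T.ncard = t →
  (Z \ T).ncard = w → rr M (L ∪ T ∪ P) ≤ t + P.ncard + m →
  rr M (L ∪ (Z ∩ T) ∪ P) + w ≤ rr M (L ∪ Z ∪ P) + m

/-- ITR.  Induction on `l`; `l = 0`: `Z = T`, `b = 0`.  Step: `Z, b` for `l`; at least
`q - l (m + v) ≥ D + (m + v)` elements of `Z` have colours in `F` (`q` elements of `T`, `l (m + v)`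
are not in `Z`), SAF with `w = m + v` gives `T', P'`; new `Z' = Z ∩ T'`, `b' c = b c + 1` if
`c ∈ F \ Gn P' m T'` and `b' c = b c` otherwise (the sum grows by at most `D`).  For
`c ∈ F \ Gn P' m T'`: monotone.  For `c ∈ Gn P' m T'`: LCR (second part, `k = (m + v) (m + 1)`) and
STP: `rr (L ∪ Z' ∪ P) + v ≤ rr (L ∪ Z ∪ P)`.  `St M N κ P' X t T'` by OPB. -/
def ItrStmt : Prop := ∀ (E : Type u) (K : Type) [Finite E] [Fintype K] (M N : Matroid E)
  (κ : E → K) (s t : ℕ) (P : Set E) (X : Set K) (T : Set E) (m v D : ℕ) (F : Set K),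
  Col M N κ s → Mx M N κ t → St M N κ P X t T →
  F = Gn M N κ P X ((m + v) * (m + 1) + m + 1) T →
  Rob M N κ X ((m + v) * (m + 1)) m D T P → ∀ l : ℕ,
  (l = 0 ∨ D + l * (m + v) ≤ {y ∈ T | κ y ∈ F}.ncard) →
  ∃ (Z : Set E) (b : K → ℕ), Z ⊆ T ∧ (T \ Z).ncard = l * (m + v) ∧ (∑ c, b c) ≤ l * D ∧
    ∀ c ∈ F, rr M (Lc N κ F T c ∪ Z ∪ P) + l * v ≤ rr M (Lc N κ F T c ∪ T ∪ P) + b c * v

/-- END.  `G := Gn P m T ⊆ F` (GNB), nonempty (an unused allowed colour), `ζ ≤ |G|` (GLO).  `Z, b` by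
ITR; `c ∈ G` with `b c` minimal: `b c * ζ ≤ b c * |G| ≤ ∑ b ≤ l * D`.
`s ≤ |L| + q = rr L + q ≤ rr (L ∪ Z ∪ P) + q`, and
`rr (L ∪ T ∪ P) ≤ t + |P| + m` (LCR with `T' = T`, `P' = P`). -/
def EndStmt : Prop := ∀ (E : Type u) (K : Type) [Finite E] [Fintype K] (M N : Matroid E)
  (κ : E → K) (s t : ℕ) (P : Set E) (X : Set K) (T : Set E) (m v D ζ q : ℕ),
  Col M N κ s → Mx M N κ t → St M N κ P X t T → (Un κ X T).Nonempty → 1 ≤ m →
  t + P.ncard + ζ ≤ s → Rob M N κ X ((m + v) * (m + 1)) m D T P →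
  q = {y ∈ T | κ y ∈ Gn M N κ P X ((m + v) * (m + 1) + m + 1) T}.ncard → ∀ l : ℕ,
  (l = 0 ∨ D + l * (m + v) ≤ q) →
  ∃ b : ℕ, b * ζ ≤ l * D ∧ s + l * v ≤ q + (t + P.ncard + m) + b * v

/-- ARI (arithmetic, `w = m + v = 16 C m`).  `16 l m ≤ z` (`l w ≤ q ≤ C z`, or `l = 0`).
`z b v ≤ 2 ζ b v ≤ 2 l D v ≤ 2 D (l w) ≤ 2 D C z`, so `16 b v ≤ 32 C D ≤ z`.
`ζ ≤ q + m + b v - l v`, `q - l v < D + w + l m`, so
`ζ < D + (w + m) + l m + b v ≤ z / 32 + z / 16 + z / 16 + z / 16 < z / 2`. -/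
def AriStmt : Prop := ∀ C z m v D ζ q l b : ℕ, 1 ≤ C → 1 ≤ m → m + v = 16 * C * m →
  32 * C * D ≤ z → z ≤ 2 * ζ → q ≤ C * z → b * ζ ≤ l * D → ζ + l * v ≤ q + m + b * v →
  q < D + (l + 1) * (m + v) → (l = 0 ∨ D + l * (m + v) ≤ q) →
  16 * (16 * C * m + m) ≤ z → False

/-- SUP (every closure with large corank moves many elements; all pairs of matroids).
`A 0 = 1`, `A (i + 1) = g (A i) + A i + 1`, `g m = 16 C m (m + 1)`, `I = 64 C ^ 2` (`C ≥ 1`; `C = 0`
trivial), `z₀ = 1000 C A(I)`.  Let `z ≥ z₀` and `h := (T \ Sta).ncard < C z`.  Take an unused allowed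
colour `c` and enlarge `X` by the other unused colours (MON: `h` does not grow); now `|Un| = 1`,
`|Pl| = h + 1 ≤ C z` (PLC).  `D := z / (32 C)`: `|Gn (A I)| ≤ |Pl| ≤ C z < I (D + 1)`.  HML gives `i`,
`T', P'`; `m := A i`, `1 ≤ m ≤ A I`, `v := 16 C m - m`, `ζ := s - t - |P'| ≥ z - A I ≥ z / 2` (OPB).
`q` = number of the elements of `T'` with colour in `F`: `κ` is injective on `T'` and
`F ⊆ Pl P' X T' ⊆ Pl P X T` (GNB, OPB, RNB), so `q ≤ h + 1 ≤ C z`.  END with `l := (q - D) / (16 C m)`,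
then ARI.  (`mon'`, `plc'`, `rch'` of Helper35_RCM/Base.lean.) -/
def SupStmt : Prop := ∀ C : ℕ, ∃ z₀ : ℕ, ∀ (E : Type u) (K : Type) [Finite E] [Finite K]
  (M N : Matroid E) (κ : E → K) (s : ℕ), Col M N κ s →
  LB M N κ s (fun z => if z < z₀ then 0 else C * z)

/-- FAR (asymptotic full rainbow theorem, coloured form).  `C := ⌈1 / ε⌉ + 1`, `z₀` from SUP,
`n₀ := ⌈z₀ / ε⌉ + 1`.  `K = Fin n`, `s` = smallest size, `s ≥ (1 + ε) n`, `τ = n - 1`:
`s - τ > ε n ≥ z₀`, `C (s - τ) > n > τ`.  ASM (`asm'`, first alternative, `F = G`) gives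
`T` with `n` elements of different colours.  Transfer to `α` as in Helper6_RCM/FIQ.lean
(`EE`, `vv`, `card_fib`, `M.comap (vv S)`); `n = |J|` elements of `J ⊆ Fin n`, so `J = univ`. -/
def FarStmt : Prop := ∀ ε : ℝ, 0 < ε → ∃ n₀ : ℕ, ∀ (α : Type u) (M N : Matroid α) (n : ℕ)
  (S : Fin n → Finset α), n₀ ≤ n → (∀ i, M.Indep (S i : Set α)) →
  (∀ i, N.Indep (S i : Set α)) → (∀ i, (1 + ε) * n ≤ ((S i).card : ℝ)) →
  ∃ g : Fin n → α, (∀ i, g i ∈ S i) ∧ Function.Injective g ∧ M.Indep (range g) ∧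
    N.Indep (range g)

end Pool.Agent.RCM
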